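import Pool.Agent.Helper93.ET.St

set_option autoImplicit false

namespace Pool.Agent.Helper76.ET

open Pool.Agent.Helper93.ET

theorem prod_refl (q r : ℕ) : ∏ i ∈ Finset.range (r - 1), (q ^ (r + 1 - 1 - i) - 1) =
    ∏ i ∈ Finset.Icc 2 r, (q ^ i - 1) := by
  refine Finset.prod_nbij' (fun i => r - i) (fun i => r - i) ?_ ?_ ?_ ?_ ?_
  · intro i hi
    rw [Finset.mem_range] at hi
    rw [Finset.mem_Icc]
    omega
  · intro i hi
    rw [Finset.mem_Icc] at hi
    rw [Finset.mem_range]
    omega
  · intro i hi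
    rw [Finset.mem_range] at hi
    omega
  · intro i hi
    rw [Finset.mem_Icc] at hi
    omega
  · intro i _
    rw [Nat.add_sub_cancel]

theorem hFIN (h1 : StPOW) (h2 : StIND) (h3 : StCMP) : StFIN := by
  intro A _ p a r hp hp0 ha hr hmod v hv
  obtain ⟨g, hg, hvg⟩ := h1 A r (p ^ a) hr hmod v hv
  obtain ⟨w, hw⟩ : ∃ w : Fin (r + 1) → A, ∑ j, w j * v j = 1 := by
    have h4 : (1 : A) ∈ Ideal.span (Set.range v) := by rw [hv]; trivial
    exact Ideal.mem_span_range_iff_exists_fun.1 h4
  let D : Dat A (r + 1) (p ^ a) 1 :=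
    { V := Matrix.of fun _ j => v j
      W := Matrix.of fun j _ => w j
      g := g
      gi := g⁻¹
      T := 1
      Ti := 1
      VW := by
        ext i j
        rw [Matrix.mul_apply, Subsingleton.elim i j, Matrix.one_apply_eq, ← hw]
        exact Finset.sum_congr rfl fun k _ => mul_comm (v k) (w k)
      ggi := Matrix.mul_nonsing_inv g hg
      gig := Matrix.nonsing_inv_mul g hg
      TTi := by rw [one_mul]
      TiT := by rw [one_mul]
      frV := by
        rw [Matrix.one_mul]
        ext i j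
        have h5 := congrFun hvg j
        change v j ^ (p ^ a) = _
        rw [Matrix.mul_apply, ← h5]
        rfl }
  obtain ⟨B, _, _, D', het, hfin, hrk, hV⟩ := h2 A p a (r + 1) 1 hp hp0 ha D (r - 1) (by omega)
  refine ⟨B, inferInstance, inferInstance, het, hfin, ?_, ?_⟩
  · intro x
    rw [hrk x, prod_refl]
  · have hr1 : r = 1 + (r - 1) := by omega
    let e : Fin r ≃ Fin (1 + (r - 1)) := finCongr hr1
    obtain ⟨M, hM, hM2⟩ := h3 B r (D'.V.submatrix e id) (D'.W.submatrix id e) (by
      rw [← Matrix.submatrix_mul D'.V D'.W e id e Function.bijective_id, D'.VW]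
      exact Matrix.submatrix_one_equiv e)
    refine ⟨M, hM, fun j => ?_⟩
    have h6 := hM2 ⟨0, by omega⟩ j
    have h7 : (Fin.castSucc (⟨0, by omega⟩ : Fin r)) = (0 : Fin (r + 1)) := rfl
    rw [h7] at h6
    rw [h6, Matrix.submatrix_apply]
    have h8 : e ⟨0, by omega⟩ = Fin.castAdd (r - 1) (0 : Fin 1) := by
      apply Fin.ext
      rfl
    rw [h8, id, hV]
    rfl

end Pool.Agent.Helper76.ET
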